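import Pool.Agent.H.MP_c1fe20_lc.A

namespace Pool.Agent.Results.MP_c1fe20_lc.Yes

open Pool.Agent.H.MP_c1fe20_lc

universe u

theorem result (X : Type u) [TopologicalSpace X] [PolishSpace X] [MeasurableSpace X]
    [BorelSpace X] (R : X → X → Prop) (hrefl : ∀ x, R x x)
    (htrans : ∀ x y z, R x y → R y z → R x z)
    (hR : MeasureTheory.AnalyticSet {p : X × X | R p.1 p.2}) :
    ∃ (G : Type) (_ : Monoid G) (_ : TopologicalSpace G) (_ : PolishSpace G) (_ : ContinuousMul G)
      (W : Type) (_ : TopologicalSpace W) (_ : PolishSpace W) (_ : MeasurableSpace W)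
      (_ : BorelSpace W) (act : G × W → W),
      Continuous act ∧ (∀ w, act (1, w) = w) ∧
      (∀ g h w, act (h, act (g, w)) = act (h * g, w)) ∧
      (∃ f : X → W, Measurable f ∧ ∀ x x', R x x' ↔ ∃ g, act (g, f x) = f x') ∧
      (∃ f : W → X, Measurable f ∧ ∀ w w', (∃ g, act (g, w) = w') ↔ R (f w) (f w')) := by
  rcases isEmpty_or_nonempty X with hX | hX
  · refine ⟨M, inferInstance, inferInstance, inferInstance, inferInstance, Empty, ⊥,
      ?_, ⊤, ?_, Prod.snd, continuous_snd, fun _ => rfl, fun _ _ _ => rfl,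
      ⟨fun x => hX.elim x, measurable_of_empty _, fun x => hX.elim x⟩,
      ⟨fun w => w.elim, measurable_of_empty _, fun w => w.elim⟩⟩
    · exact inferInstanceAs (PolishSpace Empty)
    · exact inferInstanceAs (BorelSpace Empty)
  · obtain ⟨b, ι, v, hb, hι, hv, hvι, h⟩ := main X R hrefl htrans hR
    refine ⟨M, inferInstance, inferInstance, inferInstance, inferInstance, Y, inferInstance,
      inferInstance, inferInstance, inferInstance, a b, cont_a b hb, a_one b, a_mul b,
      ⟨ι, hι, fun x x' => ?_⟩, ⟨v, hv, h⟩⟩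
    rw [h, hvι, hvι]

end Pool.Agent.Results.MP_c1fe20_lc.Yes
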